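import Pool.Agent.helper14.Kus3.Defs

/-!
# F2a: algebra of the second variation
-/

set_option linter.unusedSimpArgs false

open Set Metric MeasureTheory
open scoped ContDiff Topology

namespace Kusner.P

/-- the cofactor vector `cof(T) n` -/
noncomputable def cofv (T : E3 →L[ℝ] E3) (n : E3) : E3 :=
  (((LinearMap.trace ℝ E3 T.toLinearMap) ^ 2 -
      LinearMap.trace ℝ E3 (T.comp T).toLinearMap) / 2) • n -
    (LinearMap.trace ℝ E3 T.toLinearMap) • (ContinuousLinearMap.adjoint T n) +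
    ContinuousLinearMap.adjoint T (ContinuousLinearMap.adjoint T n)

/-- the derivative of `cofv` in direction `S` -/
noncomputable def dcofv (T S : E3 →L[ℝ] E3) (n : E3) : E3 :=
  (LinearMap.trace ℝ E3 T.toLinearMap * LinearMap.trace ℝ E3 S.toLinearMap -
      LinearMap.trace ℝ E3 (T.comp S).toLinearMap) • n -
    (LinearMap.trace ℝ E3 S.toLinearMap) • (ContinuousLinearMap.adjoint T n) -
    (LinearMap.trace ℝ E3 T.toLinearMap) • (ContinuousLinearMap.adjoint S n) +
    ContinuousLinearMap.adjoint S (ContinuousLinearMap.adjoint T n) +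
    ContinuousLinearMap.adjoint T (ContinuousLinearMap.adjoint S n)

/-- trace as a continuous linear map -/
noncomputable def trL : (E3 →L[ℝ] E3) →L[ℝ] ℝ :=
  LinearMap.toContinuousLinearMap
    { toFun := fun T => LinearMap.trace ℝ E3 T.toLinearMap
      map_add' := fun S T => by simp
      map_smul' := fun c T => by simp }

theorem trL_apply (T : E3 →L[ℝ] E3) : trL T = LinearMap.trace ℝ E3 T.toLinearMap := rfl

/-- the adjoint as a continuous real linear map -/
noncomputable def adL : (E3 →L[ℝ] E3) →L[ℝ] (E3 →L[ℝ] E3) :=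
  LinearMap.toContinuousLinearMap
    { toFun := fun T => ContinuousLinearMap.adjoint T
      map_add' := fun S T => by simp
      map_smul' := fun c T => by simp }

theorem adL_apply (T : E3 →L[ℝ] E3) : adL T = ContinuousLinearMap.adjoint T := rfl

theorem cofv_eq (T : E3 →L[ℝ] E3) (n : E3) :
    cofv T n = ((trL T ^ 2 - trL (T.comp T)) / 2) • n - trL T • adL T n + adL T (adL T n) := rfl

theorem dcofv_eq (T S : E3 →L[ℝ] E3) (n : E3) :
    dcofv T S n = (trL T * trL S - trL (T.comp S)) • n - trL S • adL T n - trL T • adL S n +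
      adL S (adL T n) + adL T (adL S n) := rfl

theorem trL_comm (T S : E3 →L[ℝ] E3) : trL (T.comp S) = trL (S.comp T) :=
  LinearMap.trace_comp_comm' (R := ℝ) S.toLinearMap T.toLinearMap

theorem contDiff_cofv : ContDiff ℝ ω fun p : (E3 →L[ℝ] E3) × E3 => cofv p.1 p.2 := by
  have h1 : ContDiff ℝ ω fun p : (E3 →L[ℝ] E3) × E3 => trL p.1 := trL.contDiff.comp contDiff_fst
  have h2 : ContDiff ℝ ω fun p : (E3 →L[ℝ] E3) × E3 => trL (p.1.comp p.1) :=
    trL.contDiff.comp (contDiff_fst.clm_comp contDiff_fst)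
  have h3 : ContDiff ℝ ω fun p : (E3 →L[ℝ] E3) × E3 => adL p.1 := adL.contDiff.comp contDiff_fst
  have h4 : ContDiff ℝ ω fun p : (E3 →L[ℝ] E3) × E3 => adL p.1 p.2 := h3.clm_apply contDiff_snd
  have h5 : ContDiff ℝ ω fun p : (E3 →L[ℝ] E3) × E3 => adL p.1 (adL p.1 p.2) := h3.clm_apply h4
  have h6 : ContDiff ℝ ω fun p : (E3 →L[ℝ] E3) × E3 =>
      ((trL p.1 ^ 2 - trL (p.1.comp p.1)) / 2) • p.2 - trL p.1 • adL p.1 p.2 +
        adL p.1 (adL p.1 p.2) :=
    (((((h1.pow 2).sub h2).div_const 2).smul contDiff_snd).sub (h1.smul h4)).add h5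
  exact h6

theorem cofv_neg (T : E3 →L[ℝ] E3) (n : E3) : cofv T (-n) = -cofv T n := by
  rw [cofv_eq, cofv_eq, map_neg, map_neg, smul_neg, smul_neg]
  abel

theorem cofv_smul (T : E3 →L[ℝ] E3) (c : ℝ) (n : E3) : cofv T (c • n) = c • cofv T n := by
  rw [cofv_eq, cofv_eq, map_smul, map_smul, smul_add, smul_sub, smul_comm, smul_comm (trL T)]

/-! ### Coordinates -/

/-- the matrix entries -/
noncomputable def ent (T : E3 →L[ℝ] E3) (i j : Fin 3) : ℝ := T (EuclideanSpace.single j 1) i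

theorem apply_coord (T : E3 →L[ℝ] E3) (u : E3) (i : Fin 3) :
    T u i = ent T i 0 * u 0 + ent T i 1 * u 1 + ent T i 2 * u 2 := by
  have h : u = u 0 • EuclideanSpace.single 0 (1 : ℝ) + u 1 • EuclideanSpace.single 1 (1 : ℝ) +
      u 2 • EuclideanSpace.single 2 (1 : ℝ) := by
    ext k
    fin_cases k <;> simp
  conv_lhs => rw [h]
  rw [map_add, map_add, map_smul, map_smul, map_smul]
  simp only [PiLp.add_apply, PiLp.smul_apply, smul_eq_mul, ent]
  ring

theorem inner_coord (u v : E3) : inner ℝ u v = u 0 * v 0 + u 1 * v 1 + u 2 * v 2 := by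
  simp [PiLp.inner_apply, Fin.sum_univ_three]
  ring

theorem ent_adjoint (T : E3 →L[ℝ] E3) (i j : Fin 3) :
    ent (ContinuousLinearMap.adjoint T) i j = ent T j i := by
  have h : ∀ (w : E3) (k : Fin 3), w k = inner ℝ (EuclideanSpace.single k (1 : ℝ)) w := by
    intro w k
    rw [inner_coord]
    fin_cases k <;> simp
  rw [ent, ent, h _ i, ContinuousLinearMap.adjoint_inner_right, real_inner_comm, ← h]

theorem trL_coord (T : E3 →L[ℝ] E3) : trL T = ent T 0 0 + ent T 1 1 + ent T 2 2 := by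
  rw [trL_apply, LinearMap.trace_eq_sum_inner _ (EuclideanSpace.basisFun (Fin 3) ℝ),
    Fin.sum_univ_three, inner_coord, inner_coord, inner_coord]
  simp [ent]

theorem ent_comp (T S : E3 →L[ℝ] E3) (i j : Fin 3) :
    ent (T.comp S) i j = ent T i 0 * ent S 0 j + ent T i 1 * ent S 1 j + ent T i 2 * ent S 2 j := by
  rw [ent, ContinuousLinearMap.comp_apply, apply_coord]
  rfl

theorem adL_coord (T : E3 →L[ℝ] E3) (u : E3) (i : Fin 3) :
    adL T u i = ent T 0 i * u 0 + ent T 1 i * u 1 + ent T 2 i * u 2 := by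
  rw [adL_apply, apply_coord, ent_adjoint, ent_adjoint, ent_adjoint]

theorem cofv_coord (T : E3 →L[ℝ] E3) (w : E3) (i : Fin 3) :
    cofv T w i = ((trL T ^ 2 - trL (T.comp T)) / 2) * w i - trL T * adL T w i +
      adL T (adL T w) i := by
  rw [cofv_eq]
  simp

/-- the cross product -/
noncomputable def cr (u v : E3) : E3 :=
  !₂[u 1 * v 2 - u 2 * v 1, u 2 * v 0 - u 0 * v 2, u 0 * v 1 - u 1 * v 0]

theorem cr0 (u v : E3) : cr u v 0 = u 1 * v 2 - u 2 * v 1 := rfl
theorem cr1 (u v : E3) : cr u v 1 = u 2 * v 0 - u 0 * v 2 := rfl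
theorem cr2 (u v : E3) : cr u v 2 = u 0 * v 1 - u 1 * v 0 := rfl

theorem cr_map (T : E3 →L[ℝ] E3) (u v : E3) : cr (T u) (T v) = cofv T (cr u v) := by
  ext i
  rw [cofv_coord]
  fin_cases i
  · simp only [Fin.zero_eta, Fin.mk_one, Fin.reduceFinMk, adL_coord, trL_coord, ent_comp, cr0, cr1,
      cr2, apply_coord T u, apply_coord T v]
    ring
  · simp only [Fin.zero_eta, Fin.mk_one, Fin.reduceFinMk, adL_coord, trL_coord, ent_comp, cr0, cr1,
      cr2, apply_coord T u, apply_coord T v]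
    ring
  · simp only [Fin.zero_eta, Fin.mk_one, Fin.reduceFinMk, adL_coord, trL_coord, ent_comp, cr0, cr1,
      cr2, apply_coord T u, apply_coord T v]
    ring

theorem jac_eq (u v : E3) : jac u v = ‖cr u v‖ := by
  rw [jac, ← Real.sqrt_sq (norm_nonneg (cr u v))]
  congr 1
  rw [← real_inner_self_eq_norm_sq, ← real_inner_self_eq_norm_sq, ← real_inner_self_eq_norm_sq,
    inner_coord, inner_coord, inner_coord, inner_coord, cr0, cr1, cr2]
  ring

theorem cr_eq {u v n : E3} (hn : ‖n‖ = 1) (hu : inner ℝ n u = 0) (hv : inner ℝ n v = 0) :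
    cr u v = inner ℝ (cr u v) n • n := by
  have h1 : n 0 * n 0 + n 1 * n 1 + n 2 * n 2 = 1 := by
    rw [← inner_coord, real_inner_self_eq_norm_sq, hn]
    norm_num
  rw [inner_coord] at hu hv
  rw [inner_coord]
  ext i
  fin_cases i
  · simp only [Fin.zero_eta, Fin.mk_one, Fin.reduceFinMk, PiLp.smul_apply, smul_eq_mul, cr0, cr1,
      cr2]
    linear_combination (-(u 1 * v 2 - u 2 * v 1)) * h1 + (n 1 * v 2 - n 2 * v 1) * hu -
      (n 1 * u 2 - n 2 * u 1) * hv
  · simp only [Fin.zero_eta, Fin.mk_one, Fin.reduceFinMk, PiLp.smul_apply, smul_eq_mul, cr0, cr1,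
      cr2]
    linear_combination (-(u 2 * v 0 - u 0 * v 2)) * h1 + (n 2 * v 0 - n 0 * v 2) * hu -
      (n 2 * u 0 - n 0 * u 2) * hv
  · simp only [Fin.zero_eta, Fin.mk_one, Fin.reduceFinMk, PiLp.smul_apply, smul_eq_mul, cr0, cr1,
      cr2]
    linear_combination (-(u 0 * v 1 - u 1 * v 0)) * h1 + (n 0 * v 1 - n 1 * v 0) * hu -
      (n 0 * u 1 - n 1 * u 0) * hv

theorem cofv_jac (T : E3 →L[ℝ] E3) {u v n : E3} (hn : ‖n‖ = 1) (hu : inner ℝ n u = 0)
    (hv : inner ℝ n v = 0) : jac (T u) (T v) = jac u v * ‖cofv T n‖ := by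
  rw [jac_eq, jac_eq, cr_map, cr_eq hn hu hv, cofv_smul, norm_smul, norm_smul, hn, mul_one]

/-- the determinant -/
noncomputable def dt (T : E3 →L[ℝ] E3) : ℝ :=
  ent T 0 0 * (ent T 1 1 * ent T 2 2 - ent T 1 2 * ent T 2 1) -
    ent T 0 1 * (ent T 1 0 * ent T 2 2 - ent T 1 2 * ent T 2 0) +
    ent T 0 2 * (ent T 1 0 * ent T 2 1 - ent T 1 1 * ent T 2 0)

theorem adL_cofv (T : E3 →L[ℝ] E3) (n : E3) : adL T (cofv T n) = dt T • n := by
  ext i
  rw [adL_coord, cofv_coord, cofv_coord, cofv_coord]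
  fin_cases i
  · simp only [Fin.zero_eta, Fin.mk_one, Fin.reduceFinMk, adL_coord, trL_coord, ent_comp,
      PiLp.smul_apply, smul_eq_mul, dt]
    ring
  · simp only [Fin.zero_eta, Fin.mk_one, Fin.reduceFinMk, adL_coord, trL_coord, ent_comp,
      PiLp.smul_apply, smul_eq_mul, dt]
    ring
  · simp only [Fin.zero_eta, Fin.mk_one, Fin.reduceFinMk, adL_coord, trL_coord, ent_comp,
      PiLp.smul_apply, smul_eq_mul, dt]
    ring

theorem dt_ne_zero {T : E3 →L[ℝ] E3} (hT : Function.Injective T) : dt T ≠ 0 := by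
  have h1 : LinearMap.det (T.toLinearMap) ≠ 0 := by
    intro h
    rw [LinearMap.det_eq_zero_iff_ker_ne_bot] at h
    exact h (LinearMap.ker_eq_bot.2 hT)
  have h2 : LinearMap.det (T.toLinearMap) = dt T := by
    rw [← LinearMap.det_toMatrix (EuclideanSpace.basisFun (Fin 3) ℝ).toBasis, Matrix.det_fin_three]
    simp only [LinearMap.toMatrix_apply, OrthonormalBasis.coe_toBasis,
      OrthonormalBasis.coe_toBasis_repr_apply, EuclideanSpace.basisFun_apply,
      EuclideanSpace.basisFun_repr, ContinuousLinearMap.coe_coe, dt, ent]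
    ring
  rwa [← h2]

theorem cofv_ne_zero {T : E3 →L[ℝ] E3} (hT : Function.Injective T) {n : E3} (hn : n ≠ 0) :
    cofv T n ≠ 0 := by
  intro h
  have h1 := adL_cofv T n
  rw [h, map_zero] at h1
  rcases smul_eq_zero.1 h1.symm with h2 | h2
  · exact dt_ne_zero hT h2
  · exact hn h2

theorem trL_one : trL 1 = 3 := by
  rw [trL_apply]
  have : (1 : E3 →L[ℝ] E3).toLinearMap = LinearMap.id := rfl
  rw [this, LinearMap.trace_id]
  simp

theorem adL_one : adL 1 = 1 := by
  ext x i
  rw [adL_coord]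
  fin_cases i <;> simp [ent]

theorem one_comp_one (T : E3 →L[ℝ] E3) : (1 : E3 →L[ℝ] E3).comp T = T := by
  ext
  rfl

theorem cofv_one (n : E3) : cofv (1 : E3 →L[ℝ] E3) n = n := by
  rw [cofv_eq, one_comp_one, trL_one, adL_one, one_apply_eq_self,
    one_apply_eq_self]
  module

theorem hasDerivAt_cofv {T : ℝ → E3 →L[ℝ] E3} {S : E3 →L[ℝ] E3} {t : ℝ}
    (hT : HasDerivAt T S t) (n : E3) :
    HasDerivAt (fun t => cofv (T t) n) (dcofv (T t) S n) t := by
  have h1 : HasDerivAt (fun t => trL (T t)) (trL S) t := trL.hasFDerivAt.comp_hasDerivAt t hT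
  have h2 : HasDerivAt (fun t => trL ((T t).comp (T t))) (trL (S.comp (T t) + (T t).comp S)) t :=
    trL.hasFDerivAt.comp_hasDerivAt t (hT.clm_comp hT)
  have h3 : HasDerivAt (fun t => adL (T t)) (adL S) t := adL.hasFDerivAt.comp_hasDerivAt t hT
  have h4 : HasDerivAt (fun t => adL (T t) n) (adL S n) t := by
    have := h3.clm_apply (hasDerivAt_const t n)
    simpa using this
  have h5 : HasDerivAt (fun t => adL (T t) (adL (T t) n))
      (adL S (adL (T t) n) + adL (T t) (adL S n)) t := h3.clm_apply h4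
  have h6 := ((((h1.pow 2).sub h2).div_const 2).smul_const n).sub (h1.smul h4) |>.add h5
  refine h6.congr_deriv ?_
  rw [dcofv_eq, map_add, trL_comm S (T t)]
  module

theorem hasDerivAt_norm_cofv {T : ℝ → E3 →L[ℝ] E3} {S : E3 →L[ℝ] E3} {t : ℝ}
    (hT : HasDerivAt T S t) {n : E3} (hne : cofv (T t) n ≠ 0) :
    HasDerivAt (fun t => ‖cofv (T t) n‖)
      (inner ℝ (cofv (T t) n) (dcofv (T t) S n) / ‖cofv (T t) n‖) t := by
  have h1 := (hasDerivAt_cofv hT n).norm_sq
  have h2 : ‖cofv (T t) n‖ ^ 2 ≠ 0 := pow_ne_zero 2 (norm_ne_zero_iff.2 hne)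
  have h3 := h1.sqrt h2
  have h4 : (fun t => √(‖cofv (T t) n‖ ^ 2)) = fun t => ‖cofv (T t) n‖ := by
    funext t
    exact Real.sqrt_sq (norm_nonneg _)
  rw [h4] at h3
  refine h3.congr_deriv ?_
  rw [Real.sqrt_sq (norm_nonneg _)]
  field_simp

theorem hasDerivAt_dcofv {T T' : ℝ → E3 →L[ℝ] E3} {S R : E3 →L[ℝ] E3} {t : ℝ}
    (hT : HasDerivAt T S t) (hT' : HasDerivAt T' R t) (n : E3) :
    HasDerivAt (fun t => dcofv (T t) (T' t) n) (dcofv S (T' t) n + dcofv (T t) R n) t := by
  have h1 : HasDerivAt (fun t => trL (T t)) (trL S) t := trL.hasFDerivAt.comp_hasDerivAt t hT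
  have h1' : HasDerivAt (fun t => trL (T' t)) (trL R) t := trL.hasFDerivAt.comp_hasDerivAt t hT'
  have h2 : HasDerivAt (fun t => trL ((T t).comp (T' t))) (trL (S.comp (T' t) + (T t).comp R)) t :=
    trL.hasFDerivAt.comp_hasDerivAt t (hT.clm_comp hT')
  have h3 : HasDerivAt (fun t => adL (T t)) (adL S) t := adL.hasFDerivAt.comp_hasDerivAt t hT
  have h3' : HasDerivAt (fun t => adL (T' t)) (adL R) t := adL.hasFDerivAt.comp_hasDerivAt t hT'
  have h4 : HasDerivAt (fun t => adL (T t) n) (adL S n) t := by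
    have := h3.clm_apply (hasDerivAt_const t n)
    simpa using this
  have h4' : HasDerivAt (fun t => adL (T' t) n) (adL R n) t := by
    have := h3'.clm_apply (hasDerivAt_const t n)
    simpa using this
  have h5 : HasDerivAt (fun t => adL (T' t) (adL (T t) n))
      (adL R (adL (T t) n) + adL (T' t) (adL S n)) t := h3'.clm_apply h4
  have h5' : HasDerivAt (fun t => adL (T t) (adL (T' t) n))
      (adL S (adL (T' t) n) + adL (T t) (adL R n)) t := h3.clm_apply h4'
  have h6 := ((((((h1.mul h1').sub h2).smul_const n).sub (h1'.smul h4)).sub (h1.smul h4')).add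
    h5).add h5'
  refine h6.congr_deriv ?_
  rw [dcofv_eq, dcofv_eq, map_add]
  module

theorem second_norm_cofv {T T' : ℝ → E3 →L[ℝ] E3} {M W : E3 →L[ℝ] E3}
    (hT : HasDerivAt T M 0) (h0 : T 0 = 1) (h0' : T' 0 = M)
    (hW : HasDerivAt T' W 0) (htM : LinearMap.trace ℝ E3 M.toLinearMap = 0)
    (htW : LinearMap.trace ℝ E3 W.toLinearMap = LinearMap.trace ℝ E3 (M.comp M).toLinearMap)
    {n : E3} (hn : ‖n‖ = 1) :
    HasDerivAt (fun t => inner ℝ (cofv (T t) n) (dcofv (T t) (T' t) n) / ‖cofv (T t) n‖)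
      (qform M W n) 0 := by
  have hn0 : n ≠ 0 := by
    rintro rfl
    simp at hn
  have hC := hasDerivAt_cofv hT n
  have hD := hasDerivAt_dcofv hT hW n
  have hne : cofv (T 0) n ≠ 0 := by rwa [h0, cofv_one]
  have hN := hasDerivAt_norm_cofv hT hne
  have h1 := (hC.inner ℝ hD).div hN (norm_ne_zero_iff.2 hne)
  refine h1.congr_deriv ?_
  rw [h0, h0', cofv_one, hn]
  have htM' : trL M = 0 := htM
  have htW' : trL W = trL (M.comp M) := htW
  have e1 : dcofv 1 M n = -ContinuousLinearMap.adjoint M n := by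
    rw [dcofv_eq, one_comp_one, trL_one, adL_one, htM', one_apply_eq_self,
      one_apply_eq_self, adL_apply]
    module
  have e2 : dcofv M M n + dcofv 1 W n =
      (2 : ℝ) • ContinuousLinearMap.adjoint M (ContinuousLinearMap.adjoint M n) -
        ContinuousLinearMap.adjoint W n := by
    rw [dcofv_eq, dcofv_eq, one_comp_one, trL_one, adL_one, htM', htW',
      one_apply_eq_self, one_apply_eq_self, adL_apply, adL_apply]
    module
  rw [e1, e2, inner_sub_right, inner_neg_right, inner_neg_right, inner_neg_left, real_inner_smul_right,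
    real_inner_self_eq_norm_sq, ContinuousLinearMap.adjoint_inner_right,
    ContinuousLinearMap.adjoint_inner_right, ContinuousLinearMap.adjoint_inner_right,
    ContinuousLinearMap.adjoint_inner_right, qform, real_inner_comm n (M n),
    real_inner_comm n (M (M n)), real_inner_comm n (W n)]
  ring

end Kusner.P
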