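import Pool.Agent.helper14.Kus3.NumCon

/-!
# N4: Fubini over vertical strips (module KN4 for MP_5bdae7_gt)
-/

open Set Metric MeasureTheory
open scoped ContDiff Topology

namespace Kusner.Num.P

/-- If the vertical strips `[e i, e (i+1)]`, `i < n`, cover `D` and on each of them
`∫ f(e) |slice e| ≤ v i` pointwise bounds hold, then the integral over `D` is at most the sum. -/
theorem strip_bound {D : Set (ℝ × ℝ)} (hD : MeasurableSet D) {f : ℝ → ℝ} (hf : Continuous f)
    (n : ℕ) (e v : ℕ → ℝ) (hmono : ∀ i < n, e i ≤ e (i + 1))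
    (hcover : ∀ u ∈ D, e 0 ≤ u.1 ∧ u.1 ≤ e n) (hθ : ∀ u ∈ D, u.2 ∈ Ioc (-Real.pi) Real.pi)
    (hv : ∀ i < n, ∃ g : ℝ → ℝ, IntervalIntegrable g volume (e i) (e (i + 1)) ∧
      ∫ x in (e i)..(e (i + 1)), g x ≤ v i ∧
      ∀ x ∈ Ioo (e i) (e (i + 1)), f x * (volume (slice D x)).toReal ≤ g x) :
    ∫ u in D, f u.1 ≤ ∑ i ∈ Finset.range n, v i := by
  have hsub : D ⊆ Icc (e 0) (e n) ×ˢ Icc (-Real.pi) Real.pi := fun u hu =>
    ⟨hcover u hu, Ioc_subset_Icc_self (hθ u hu)⟩
  have hint : IntegrableOn (fun u : ℝ × ℝ => f u.1) D volume :=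
    ((hf.comp continuous_fst).continuousOn.integrableOn_compact
      (isCompact_Icc.prod isCompact_Icc)).mono_set hsub
  have hint2 : Integrable (D.indicator fun u : ℝ × ℝ => f u.1)
      ((volume : Measure ℝ).prod (volume : Measure ℝ)) := by
    rw [← Measure.volume_eq_prod]
    exact (integrable_indicator_iff hD).mpr hint
  set h : ℝ → ℝ := fun x => f x * (volume (slice D x)).toReal with hh
  have hslice : ∀ x, ∫ y, D.indicator (fun u : ℝ × ℝ => f u.1) (x, y) = h x := by
    intro x
    have h0 : (fun y => D.indicator (fun u : ℝ × ℝ => f u.1) (x, y)) =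
        (slice D x).indicator (fun _ => f x) := by
      funext y
      by_cases hy : (x, y) ∈ D
      · rw [indicator_of_mem hy, indicator_of_mem (show y ∈ slice D x from hy)]
      · rw [indicator_of_notMem hy, indicator_of_notMem (show y ∉ slice D x from hy)]
    have hm : MeasurableSet (slice D x) := measurable_prodMk_left hD
    rw [h0, integral_indicator hm, setIntegral_const, smul_eq_mul, mul_comm]
    rfl
  have h1 : ∫ u in D, f u.1 = ∫ x, h x := by
    rw [← integral_indicator hD, Measure.volume_eq_prod, integral_prod _ hint2]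
    exact integral_congr_ae (Filter.Eventually.of_forall hslice)
  have hI : Integrable h :=
    hint2.integral_prod_left.congr (Filter.Eventually.of_forall hslice)
  have hsupp : ∀ x, x ∉ Icc (e 0) (e n) → h x = 0 := by
    intro x hx
    have h0 : slice D x = ∅ := by
      rw [eq_empty_iff_forall_notMem]
      exact fun y hy => hx (hcover _ hy)
    simp only [hh, h0, measure_empty, ENNReal.toReal_zero, mul_zero]
  have hle : ∀ i ≤ n, e 0 ≤ e i := by
    intro i
    induction i with
    | zero => intro _; exact le_rfl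
    | succ i ih => intro hi; exact (ih (by omega)).trans (hmono i (by omega))
  have h2 : ∫ x, h x = ∫ x in (e 0)..(e n), h x := by
    rw [intervalIntegral.integral_of_le (hle n le_rfl), ← integral_Icc_eq_integral_Ioc,
      setIntegral_eq_integral_of_forall_compl_eq_zero hsupp]
  rw [h1, h2, ← intervalIntegral.sum_integral_adjacent_intervals
    (fun i _ => hI.intervalIntegrable)]
  refine Finset.sum_le_sum fun i hi => ?_
  have hin := Finset.mem_range.mp hi
  obtain ⟨g, hg, hgv, hgb⟩ := hv i hin
  refine le_trans ?_ hgv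
  exact intervalIntegral.integral_mono_on_of_le_Ioo (hmono i hin) hI.intervalIntegrable hg
    fun x hx => hgb x hx

end Kusner.Num.P
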