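import Pool.Agent.helper28.Kus3.F2a

/-!
# F2a: the second variation, for a given derivative function
-/

open Set Metric MeasureTheory Filter
open scoped ContDiff Topology

namespace Kusner.P

theorem jac_cofv (T : E3 →L[ℝ] E3) {n u v : E3} (hn : ‖n‖ = 1) (hu : inner ℝ n u = 0)
    (hv : inner ℝ n v = 0) : jac (T u) (T v) = jac u v * ‖cofv T n‖ := cofv_jac T hn hu hv

theorem second_cofv {T T' : ℝ → (E3 →L[ℝ] E3)} {M W : E3 →L[ℝ] E3}
    (h0 : T 0 = ContinuousLinearMap.id ℝ E3) (hT : ∀ t, HasDerivAt T (T' t) t) (hM : T' 0 = M)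
    (hW : HasDerivAt T' W 0) (htM : LinearMap.trace ℝ E3 M.toLinearMap = 0)
    (htW : LinearMap.trace ℝ E3 W.toLinearMap = LinearMap.trace ℝ E3 (M.comp M).toLinearMap)
    {n : E3} (hn : ‖n‖ = 1) {f' : ℝ → ℝ}
    (hf : ∀ t, HasDerivAt (fun t => ‖cofv (T t) n‖) (f' t) t) :
    HasDerivAt f' (qform M W n) 0 := by
  have hn0 : n ≠ 0 := by
    rintro rfl
    simp at hn
  have h0' : T 0 = 1 := h0
  have h1 := second_norm_cofv (T := T) (T' := T') (M := M) (W := W) (hM ▸ hT 0) h0' hM hW htM htW hn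
  refine h1.congr_of_eventuallyEq ?_
  have hc : ContinuousAt (fun t => cofv (T t) n) 0 := (hasDerivAt_cofv (hT 0) n).continuousAt
  have hne : cofv (T 0) n ≠ 0 := by rwa [h0', cofv_one]
  filter_upwards [hc.eventually_ne hne] with t ht
  exact (hf t).unique (hasDerivAt_norm_cofv (hT t) ht)

end Kusner.P
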